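import Pool.Agent.Run7.h282.PM.ALL
import Pool.Agent.Run7.h477.PM.G3

/-!
# MP_b575e9_co, Q1: the permanent of a uniform random matrix over `F_q`, `q` odd

For every finite field `F` of odd characteristic the proportion of the `n × n` matrices over `F` with
permanent `c` tends to `1 / |F|` as `n → ∞`, for every `c : F`. The case `c = 0` answers Q1.

Outline of the proof (see `Pool/Agent/Run7/h282/PM/Iface.lean`). In the algebra `F[e_1, ..., e_n]/(e_i ^ 2)`
the product of the linear forms given by the rows is the permanent times `e_1 ⋯ e_n`. Let `p(m, n)` be the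
probability that the product of `m` uniform random linear forms in `n` variables vanishes. Then
`Pr[per A_{n+1} = 0] = 1/q + (1 - 1/q) p(n, n+1)`, so that we need `a_n := p(n-1, n) → 0`.

* A non-zero element of degree `m` is killed by at most `q ^ m` linear forms. Hence
  `p(m, n) ≤ q ^ (m - n) / (q - 1)`, and with `δ(m) = p(m+1, n) - p(m, n)` one has
  `δ(m+1) ≥ (1 - q ^ (m-n)) δ(m)`.
* Restricting the linear forms to a subset of the variables makes zero more likely; this gives the almost
  monotonicity `a_N ≤ p(N-n, N) + a_n ≤ q ^ (-n) / (q - 1) + a_n` for `n ≤ N`.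
* Restrict one of the rows to `k + 1` coordinates. If it has exactly three non-zero coordinates, the
  remaining average over the three corresponding columns is a quadratic Gauss sum (`q` is odd) of rank at
  least two, which gains a factor `q` compared with the trivial bound. Hence
  `a_{n+1} ≤ q ^ (-k-1) + a_n - w (1 - 1/q) (a_n - p(n-2, n))`, `w = C(k+1, 3) (q-1)^3 / q ^ (k+1)`.
* Summing over `n`, there are infinitely many `n` for which `a_n - p(n-2, n)` is as small as we like, then
  all the increments `δ` near `n` are small by the first point, hence `a_n` itself is small, and by almost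
  monotonicity `a_n → 0`.
-/

set_option autoImplicit false

open Filter Topology

namespace Pool.Agent.Results.MP_b575e9_co.VanishingProbability

/-- For every finite field `F` of odd characteristic and every `c : F`, the proportion of the `n × n`
matrices over `F` with permanent `c` tends to `1 / |F|`. -/
theorem result (F : Type) [Field F] [Fintype F] (hF : ringChar F ≠ 2) (c : F) :
    Tendsto (fun n : ℕ => (Nat.card {A : Matrix (Fin n) (Fin n) F // A.permanent = c} : ℝ) /
      (Nat.card (Matrix (Fin n) (Fin n) F) : ℝ)) atTop (𝓝 (1 / (Nat.card F : ℝ))) :=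
  Run7.h282.PM.all_of_G3
    (Run7.h477.PM.t_G3 Run7.h282.PM.t_BASE Run7.h178.PM.t_RKB Run7.h282.PM.t_EXP
      (Run7.h108.PM.t_COL Run7.h282.PM.t_BASE Run7.h354.PM.t_PER) Run7.h834.PM.t_QUAD Run7.h834.PM.t_CHR)
    F (Ring.two_ne_zero hF) c

end Pool.Agent.Results.MP_b575e9_co.VanishingProbability
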